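import Mathlib
import Pool.Agent.H.MP_2e9a62_al.B

namespace Pool.Agent.Results.MP_2e9a62_al.Counter

theorem result :
    (¬ ∀ (k : Type) [Field k] (R : Type) [Ring R] [Algebra k R],
      Algebra.FiniteType k R → IsDomain R → Ideal.jacobson (⊥ : Ideal R) = ⊥) ∧
    ∀ (k : Type) [Field k] [Countable k], ∃ (R : Type) (_ : Ring R) (_ : Algebra k R),
      Algebra.FiniteType k R ∧ IsDomain R ∧ Ideal.jacobson (⊥ : Ideal R) ≠ ⊥ :=
  ⟨fun h => by
    obtain ⟨R, _, _, h1, h2, h3⟩ := Pool.Agent.H.MP_2e9a62_al.main ℚ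
    exact h3 (h ℚ R h1 h2), Pool.Agent.H.MP_2e9a62_al.main⟩

end Pool.Agent.Results.MP_2e9a62_al.Counter
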